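import Pool.Agent.V11202.Had.Main

open Set Filter Topology InnerProductSpace Laplacian Pool.Agent.V11202.Had
open scoped ContDiff

namespace Pool.Agent.Results.MP_1759d0_gt.HadamardOrder

/-- Gauss curvature of the metric `lam (dx² + dy²)` on `ℂ`: `K = - Δ (log lam) / (2 lam)`,
where `Δ` is the Euclidean Laplacian. -/
noncomputable def gaussCurv (lam : ℂ → ℝ) (z : ℂ) : ℝ :=
  -(Δ (fun x => Real.log (lam x)) z) / (2 * lam z)

/-- The Riemannian distance of the metric `lam (dx² + dy²)`: the infimum of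
`∫₀¹ √(lam (γ t)) ‖γ' t‖ dt` over the `C¹` curves `γ` from `p` to `q`. -/
noncomputable def gDist (lam : ℂ → ℝ) (p q : ℂ) : ℝ :=
  riemDist (fun z => Real.sqrt (lam z)) p q

/-- The Hadamard order of `f` on `(ℂ, lam (dx² + dy²))`: the limit superior of
`log log |f p| / log d (p, 0)` as `p` leaves every compact set, over the points with `|f p| > 1`. -/
noncomputable def ordH (lam : ℂ → ℝ) (f : ℂ → ℂ) : EReal :=
  limsup (fun p : ℂ => ((Real.log (Real.log ‖f p‖) / Real.log (gDist lam p 0) : ℝ) : EReal))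
    (cocompact ℂ ⊓ 𝓟 {p | 1 < ‖f p‖})

/-- Every complete Kähler metric `lam (dx² + dy²)` on `ℂ` with `-c ≤ K ≤ 0` carries a nonconstant
entire function of Hadamard order at most one. -/
theorem result (lam : ℂ → ℝ) (hlam : ContDiff ℝ ∞ lam) (hpos : ∀ z, 0 < lam z)
    (hcomplete : IsCompleteMetric fun z => Real.sqrt (lam z)) (c : ℝ) (hc : 0 < c)
    (hK : ∀ z, -c ≤ gaussCurv lam z ∧ gaussCurv lam z ≤ 0) :
    ∃ f : ℂ → ℂ, Differentiable ℂ f ∧ (∃ a b, f a ≠ f b) ∧ ordH lam f ≤ 1 := by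
  set ψ : ℂ → ℝ := fun z => (1 / 2 : ℝ) * Real.log (lam z) with hψdef
  have hlog : ContDiff ℝ 2 fun z => Real.log (lam z) :=
    (contDiff_infty.1 hlam 2).log fun z => (hpos z).ne'
  have hψ : ContDiff ℝ 2 ψ := contDiff_const.mul hlog
  have hexp2 : ∀ z, Real.exp (2 * ψ z) = lam z := by
    intro z
    rw [hψdef]
    simp only
    rw [← mul_assoc, show (2 : ℝ) * (1 / 2) = 1 by norm_num, one_mul, Real.exp_log (hpos z)]
  have hexp : (fun z => Real.sqrt (lam z)) = fun z => Real.exp (ψ z) := by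
    funext z
    rw [Real.sqrt_eq_iff_mul_self_eq (hpos z).le (Real.exp_pos _).le, ← Real.exp_add, ← two_mul,
      hexp2]
  have hlap : ∀ z, Δ ψ z = (1 / 2 : ℝ) * Δ (fun x => Real.log (lam x)) z := by
    intro z
    have := laplacian_smul (1 / 2 : ℝ) (hlog.contDiffAt (x := z))
    exact this
  have h0 : ∀ z, 0 ≤ Δ ψ z := by
    intro z
    have h1 := (hK z).2
    unfold gaussCurv at h1
    rw [div_le_iff₀ (mul_pos two_pos (hpos z))] at h1
    rw [hlap]
    linarith
  have h1 : ∀ z, Δ ψ z ≤ c * Real.exp (2 * ψ z) := by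
    intro z
    have h1 := (hK z).1
    unfold gaussCurv at h1
    rw [le_div_iff₀ (mul_pos two_pos (hpos z))] at h1
    rw [hlap, hexp2]
    linarith
  rw [hexp] at hcomplete
  obtain ⟨C, hC, hdist⟩ := log_le_dist hψ hcomplete hc h0 h1
  refine ⟨fun z => z, differentiable_id, ⟨0, 1, by norm_num⟩, ?_⟩
  unfold ordH gDist
  rw [hexp]
  set d : ℂ → ℝ := fun p => riemDist (fun z => Real.exp (ψ z)) p 0 with hd
  have hnorm : Tendsto (fun p : ℂ => ‖p‖) (cocompact ℂ) atTop := tendsto_norm_cocompact_atTop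
  have hkey : ∀ p : ℂ, 1 < ‖p‖ → Real.log ‖p‖ ≤ C * d p := by
    intro p hp
    refine le_trans ?_ (hdist p)
    rw [le_div_iff₀ two_pos, mul_comm, ← Real.log_rpow (by linarith)]
    refine Real.log_le_log (by positivity) ?_
    norm_num
  have hfil : cocompact ℂ ⊓ 𝓟 {p : ℂ | 1 < ‖p‖} = cocompact ℂ :=
    inf_of_le_left (le_principal_iff.2 (hnorm.eventually_gt_atTop 1))
  rw [hfil]
  have hdinf : Tendsto d (cocompact ℂ) atTop := by
    have h2 : Tendsto (fun p : ℂ => Real.log ‖p‖ / C) (cocompact ℂ) atTop :=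
      (Real.tendsto_log_atTop.comp hnorm).atTop_div_const hC
    refine tendsto_atTop_mono' _ ?_ h2
    filter_upwards [hnorm.eventually_gt_atTop 1] with p hp
    rw [div_le_iff₀' hC]
    exact hkey p hp
  have hldinf : Tendsto (fun p => Real.log (d p)) (cocompact ℂ) atTop :=
    Real.tendsto_log_atTop.comp hdinf
  have hG : Tendsto (fun p => (1 : ℝ) + Real.log C / Real.log (d p)) (cocompact ℂ) (𝓝 1) := by
    have := (hldinf.const_div_atTop (Real.log C)).const_add 1
    simpa using this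
  have hG' : Tendsto (fun p => ((1 + Real.log C / Real.log (d p) : ℝ) : EReal)) (cocompact ℂ)
      (𝓝 1) := by
    have := (continuous_coe_real_ereal.tendsto 1).comp hG
    exact this
  rw [← hG'.limsup_eq]
  refine limsup_le_limsup ?_
  filter_upwards [hnorm.eventually_gt_atTop 1, hldinf.eventually_gt_atTop 0,
    hdinf.eventually_gt_atTop 0] with p hp hlp hdp
  rw [EReal.coe_le_coe_iff, div_le_iff₀ hlp, add_mul, one_mul, div_mul_cancel₀ _ hlp.ne']
  have h2 : 0 < Real.log ‖p‖ := Real.log_pos hp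
  calc Real.log (Real.log ‖p‖) ≤ Real.log (C * d p) := Real.log_le_log h2 (hkey p hp)
    _ = Real.log (d p) + Real.log C := by rw [Real.log_mul hC.ne' hdp.ne']; ring

end Pool.Agent.Results.MP_1759d0_gt.HadamardOrder
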